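import Pool.Agent.helper71.AA.S1

/-! # Project AA, module W1: the weights are negative unless there are at most three prime factors -/

namespace Pool.Agent.helper71.AA

open Finset

lemma W1_Gs_mono {Q : Finset ℕ} (hQ : ∀ l ∈ Q, 2 ≤ l) {x y : ℝ} (h : x ≤ y) :
    Gs Q x ≤ Gs Q y := by
  unfold Gs
  apply sum_le_sum_of_subset_of_nonneg
  · intro K hK
    rw [S1_mem_Sub] at hK ⊢
    exact ⟨hK.1, hK.2.trans h⟩
  · intro K hK _
    rw [S1_mem_Sub] at hK
    have := S1_ph_pos fun l hl => hQ l (hK.1 hl)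
    positivity

lemma W1_Gs_nonneg {Q : Finset ℕ} (hQ : ∀ l ∈ Q, 2 ≤ l) (x : ℝ) : 0 ≤ Gs Q x := by
  unfold Gs
  refine sum_nonneg fun K hK => ?_
  rw [S1_mem_Sub] at hK
  have := S1_ph_pos fun l hl => hQ l (hK.1 hl)
  positivity

lemma W1_Gs_half {Q : Finset ℕ} (hQ : ∀ l ∈ Q, 2 ≤ l) : Gs Q (1 / 2) = 0 := by
  unfold Gs
  apply sum_eq_zero
  intro K hK
  rw [S1_mem_Sub] at hK
  have := S1_pr_ge fun l hl => hQ l (hK.1 hl)
  linarith [hK.2]

lemma W1_Aw_pos (w : ℕ) : 0 < Aw w := by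
  unfold Aw
  have h : 0 < primorial w := primorial_pos w
  have h2 : 0 < Nat.totient (primorial w) := Nat.totient_pos.2 h
  positivity

/-- comparison, first case -/
lemma W1_numA (a L C ρ t s S0 Si : ℝ) (ha : 0 < a) (hC : 0 < C) (hρ : 0.034 ≤ ρ)
    (ht : t ≤ 1.002) (hs : 0.994 ≤ s) (hL : 20000 * (C / a) + 4000 ≤ L)
    (h0 : S0 ≤ t * a * (0.166 * L + 0.7) + C) (hi : s * a * (ρ * L) - C ≤ Si) :
    S0 ≤ 1.01 * 0.166 / ρ * Si := by
  have hρ0 : 0 < ρ := by linarith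
  have hL0 : 0 < L := by
    have : 0 ≤ C / a := by positivity
    linarith
  have haL : 20000 * C + 4000 * a ≤ a * L := by
    have := mul_le_mul_of_nonneg_left hL ha.le
    have e : a * (20000 * (C / a) + 4000) = 20000 * C + 4000 * a := by
      field_simp
    linarith
  have haL0 : 0 < a * L := mul_pos ha hL0
  have h1 : 1.01 * 0.166 / ρ * Si ≥ 1.01 * 0.166 / ρ * (s * a * (ρ * L) - C) :=
    mul_le_mul_of_nonneg_left hi (by positivity)
  have h2 : 1.01 * 0.166 / ρ * (s * a * (ρ * L) - C) =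
      1.01 * 0.166 * s * (a * L) - 1.01 * 0.166 / ρ * C := by
    field_simp
  have h3 : 1.01 * 0.166 / ρ ≤ 5 := by
    rw [div_le_iff₀ hρ0]
    linarith
  have h4 : 1.01 * 0.166 / ρ * C ≤ 5 * C := mul_le_mul_of_nonneg_right h3 hC.le
  have h5 : 1.01 * 0.166 * 0.994 * (a * L) ≤ 1.01 * 0.166 * s * (a * L) := by
    apply mul_le_mul_of_nonneg_right _ haL0.le
    linarith
  have h6 : t * a * (0.166 * L + 0.7) ≤ 1.002 * (0.166 * (a * L) + 0.7 * a) := by
    have : t * (a * (0.166 * L + 0.7)) ≤ 1.002 * (a * (0.166 * L + 0.7)) :=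
      mul_le_mul_of_nonneg_right ht (by positivity)
    linarith
  linarith

/-- comparison, second case -/
lemma W1_numB (a L C ρ δ t s g S0 Si : ℝ) (ha : 0 < a) (hC : 0 < C) (hρ : 0.034 ≤ ρ)
    (hρ' : ρ ≤ 0.119) (hδ : 0 < δ)
    (ht : t ≤ 1.002) (hs : 0.994 ≤ s) (hL : 7 * (C / (a * δ)) ≤ L) (hg : δ * L ≤ g)
    (h0 : S0 ≤ t * a * g + C) (hi : s * a * g - C ≤ Si) :
    S0 ≤ 1.01 * 0.166 / ρ * Si := by
  have hρ0 : 0 < ρ := by linarith
  have hL0 : 0 < L := lt_of_lt_of_le (by positivity) hL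
  have hg0 : 0 < g := lt_of_lt_of_le (by positivity) hg
  have hag : 7 * C ≤ a * g := by
    have h := mul_le_mul_of_nonneg_left hL (mul_pos ha hδ).le
    have e : a * δ * (7 * (C / (a * δ))) = 7 * C := by
      field_simp
    have h' := mul_le_mul_of_nonneg_left hg ha.le
    linarith
  have hag0 : 0 < a * g := mul_pos ha hg0
  have h3 : 1.4 ≤ 1.01 * 0.166 / ρ := by
    rw [le_div_iff₀ hρ0]
    linarith
  have h5 : 0.994 * (a * g) ≤ s * (a * g) := mul_le_mul_of_nonneg_right hs hag0.le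
  have h6 : t * (a * g) ≤ 1.002 * (a * g) := mul_le_mul_of_nonneg_right ht hag0.le
  have hSi : 0 ≤ Si := by linarith
  have h7 : 1.4 * Si ≤ 1.01 * 0.166 / ρ * Si := mul_le_mul_of_nonneg_right h3 hSi
  linarith

theorem pointwise_of
    (hU : ∀ (w : ℕ), 10 ≤ w → ∃ C : ℝ, 0 < C ∧ ∀ (Z : ℕ) (Q : Finset ℕ), Q ⊆ Qs w Z →
      ∀ x y : ℝ, 0 < y → y ≤ x →
        Gs Q x - Gs Q y ≤ (1 + 2 / w) * Aw w * Real.log (x / y) + C)
    (hLo : ∀ (w : ℕ), 10 ≤ w → ∃ C : ℝ, 0 < C ∧ ∀ (Z p g : ℕ), w < p → w < g →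
      ∀ x y : ℝ, 1 ≤ y → y ≤ x → x ≤ Z →
        (1 - 6 / w) * Aw w * Real.log (x / y) - C ≤
          Gs (((Qs w Z).erase p).erase g) x - Gs (((Qs w Z).erase p).erase g) y) :
    ∃ w₀ : ℕ, ∀ w : ℕ, w₀ ≤ w → ∀ δ : ℝ, 0 < δ → δ ≤ 1 / 10 → ∃ X₀ : ℝ,
    ∀ X : ℝ, X₀ ≤ X → ∀ p : ℕ, w < p → ∀ n : ℕ, 0 < n → Squarefree n →
      (n : ℝ) ≤ X ^ (1.002 : ℝ) → (∀ l : ℕ, l ∈ n.primeFactors → X ^ δ < (l : ℝ)) →
      4 ≤ n.primeFactors.card → ¬ p ∣ n →
      lam * Sg ((QX w X).erase p) (X ^ (0.166 : ℝ)) ((QX w X).filter (fun l => l ∣ n)) ^ 2 ≤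
        ∑ i, κe i * Ff ((QX w X).erase p) (X ^ (ρe i)) 0 (ve X δ i)
          ((QX w X).filter (fun l => l ∣ n)) := by
  refine ⟨1000, fun w hw δ hδ hδ1 => ?_⟩
  obtain ⟨C₁, hC₁, hU⟩ := hU w (by omega)
  obtain ⟨C₂, hC₂, hLo⟩ := hLo w (by omega)
  set a : ℝ := Aw w with hadef
  have ha : 0 < a := W1_Aw_pos w
  set C : ℝ := C₁ + C₂ with hCdef
  have hC : 0 < C := by positivity
  have hwR : (1000 : ℝ) ≤ w := by exact_mod_cast hw
  have hw0 : (0 : ℝ) < w := by linarith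
  have ht : 1 + 2 / (w : ℝ) ≤ 1.002 := by
    have : 2 / (w : ℝ) ≤ 0.002 := by
      rw [div_le_iff₀ hw0]; linarith
    linarith
  have hs : 0.994 ≤ 1 - 6 / (w : ℝ) := by
    have : 6 / (w : ℝ) ≤ 0.006 := by
      rw [div_le_iff₀ hw0]; linarith
    linarith
  set L₀ : ℝ := w / δ + 10 + (20000 * (C / a) + 4000) + 7 * (C / (a * δ)) with hL₀
  have p1 : 0 ≤ (w : ℝ) / δ := by positivity
  have p2 : 0 ≤ C / a := by positivity
  have p3 : 0 ≤ C / (a * δ) := by positivity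
  refine ⟨Real.exp L₀, fun X hX p hp n hn hsq hnX hpf hcard hpn => ?_⟩
  have hX0 : 0 < X := lt_of_lt_of_le (Real.exp_pos _) hX
  set L : ℝ := Real.log X with hLdef
  have hLL : L₀ ≤ L := by
    rw [hLdef, Real.le_log_iff_exp_le hX0]; exact hX
  have hL10 : 10 ≤ L := by linarith
  have hL0 : 0 < L := by linarith
  have hX1 : 1 < X := by
    have := Real.log_pos_iff hX0.le |>.1 hL0
    exact this
  have hrpow : ∀ e : ℝ, X ^ e = Real.exp (L * e) := fun e => by
    rw [Real.rpow_def_of_pos hX0]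
  have hlogr : ∀ e : ℝ, Real.log (X ^ e) = e * L := fun e => Real.log_rpow hX0 e
  have hmono : ∀ e e' : ℝ, e ≤ e' → X ^ e ≤ X ^ e' := fun e e' h =>
    Real.rpow_le_rpow_of_exponent_le hX1.le h
  have hge1 : ∀ e : ℝ, 0 ≤ e → 1 ≤ X ^ e := fun e h => Real.one_le_rpow hX1.le h
  have hpos : ∀ e : ℝ, 0 < X ^ e := fun e => Real.rpow_pos_of_pos hX0 e
  -- size of `X ^ δ`
  have hwX : (w : ℝ) ≤ X ^ δ := by
    rw [hrpow]
    have h1 : (w : ℝ) ≤ L * δ := by
      have : (w : ℝ) / δ ≤ L := by linarith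
      rwa [div_le_iff₀ hδ] at this
    linarith [Real.add_one_le_exp (L * δ)]
  set Z : ℕ := ⌊X ^ (0.43 : ℝ)⌋₊ with hZ
  have hZX : (Z : ℝ) ≤ X ^ (0.43 : ℝ) := Nat.floor_le (hpos _).le
  have hXZ : X ^ (0.43 : ℝ) < Z + 1 := Nat.lt_floor_add_one _
  have hRZ : X ^ (0.119 : ℝ) ≤ Z := by
    have h1 : X ^ (0.43 : ℝ) = X ^ (0.119 : ℝ) * X ^ (0.311 : ℝ) := by
      rw [← Real.rpow_add hX0]; norm_num
    have h2 : 2 ≤ X ^ (0.311 : ℝ) := by
      rw [hrpow]
      linarith [Real.add_one_le_exp (L * 0.311)]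
    have h3 := hge1 0.119 (by norm_num)
    have h4 := mul_le_mul_of_nonneg_left h2 (hpos 0.119).le
    linarith
  set Q : Finset ℕ := QX w X with hQdef
  have hQX : Q = Qs w Z := rfl
  have hQmem : ∀ l, l ∈ Q ↔ (w < l ∧ l ≤ Z) ∧ l.Prime := by
    intro l
    rw [hQX, Qs, mem_filter, mem_Ioc]
  set Q' : Finset ℕ := Q.erase p with hQ'def
  have hQ2 : ∀ l ∈ Q', 2 ≤ l := fun l hl => ((hQmem l).1 (mem_of_mem_erase hl)).2.two_le
  set A : Finset ℕ := Q.filter (fun l => l ∣ n) with hAdef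
  have hAQ : A ⊆ Q' := by
    intro l hl
    rw [hAdef, mem_filter] at hl
    rw [hQ'def, mem_erase]
    refine ⟨?_, hl.1⟩
    rintro rfl
    exact hpn hl.2
  have hApf : ∀ l ∈ A, l ∈ n.primeFactors := by
    intro l hl
    rw [hAdef, mem_filter] at hl
    rw [Nat.mem_primeFactors]
    exact ⟨((hQmem l).1 hl.1).2, hl.2, hn.ne'⟩
  have hAδ : ∀ l ∈ A, X ^ δ < (l : ℝ) := fun l hl => hpf l (hApf l hl)
  -- the sums
  set S : Fin 4 → ℝ := fun i => Sg Q' (X ^ (ρe i)) A with hS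
  set V : Fin 4 → ℝ := fun i => ∑ l ∈ A, ve X δ i l with hV
  have hFf : ∀ i, Ff Q' (X ^ (ρe i)) 0 (ve X δ i) A = S i ^ 2 * V i := by
    intro i
    simp only [Ff, Vf, hS, hV, zero_add]
  have hρ0 : ρe 0 = 0.166 := by simp [ρe]
  have hS0 : Sg Q' (X ^ (0.166 : ℝ)) A = S 0 := by
    simp only [hS, hρ0]
  rw [hS0, Fin.sum_univ_four]
  simp only [hFf]
  have hκ0 : κe 0 = 1 := by simp [κe]
  have hve0 : ∀ l ∈ A, ve X δ 0 l = if (l : ℝ) ≤ X ^ (0.166 : ℝ) then 1 else 0 := by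
    intro l hl
    have := hAδ l hl
    simp only [ve, αe, βe, Matrix.cons_val_zero, this, true_and, if_true]
  -- term for `i ≠ 0`
  have hvnn : ∀ i : Fin 4, βe i ≤ 0.43 → i ≠ 0 → ∀ l ∈ A, 0 ≤ ve X δ i l := by
    intro i hβ hi l hl
    unfold ve
    by_cases h1 : X ^ (αe δ i) < l ∧ (l : ℝ) ≤ X ^ (βe i)
    · rw [if_pos h1, if_neg hi]
      have hl0 : (0 : ℝ) < l := lt_trans (hpos δ) (hAδ l hl)
      have h3 : Real.log l ≤ βe i * L := by
        rw [← hlogr]
        exact Real.log_le_log hl0 h1.2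
      have h4 : Real.log l / (0.43 * Real.log X) ≤ 1 := by
        rw [div_le_one (by positivity)]
        have : βe i * L ≤ 0.43 * L := mul_le_mul_of_nonneg_right hβ hL0.le
        exact h3.trans this
      exact sub_nonneg.2 h4
    · rw [if_neg h1]
  have hκnn : ∀ i, 0 ≤ κe i := by
    intro i
    unfold κe
    split_ifs
    · exact zero_le_one
    · positivity
  have hβ1 : βe 1 = 0.26 := by simp [βe]
  have hβ2 : βe 2 = 0.35 := by simp [βe]
  have hβ3 : βe 3 = 0.43 := by simp [βe]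
  have hV1 : 0 ≤ V 1 := sum_nonneg fun l hl => hvnn 1 (by rw [hβ1]; norm_num) (by decide) l hl
  have hV2 : 0 ≤ V 2 := sum_nonneg fun l hl => hvnn 2 (by rw [hβ2]; norm_num) (by decide) l hl
  have hV3 : 0 ≤ V 3 := sum_nonneg fun l hl => hvnn 3 (by rw [hβ3]) (by decide) l hl
  set A0 : Finset ℕ := A.filter (fun l => (l : ℝ) ≤ X ^ (0.166 : ℝ)) with hA0
  have hV0 : V 0 = (A0.card : ℝ) := by
    simp only [hV]
    rw [sum_congr rfl hve0, hA0, card_filter]
    push_cast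
    rfl
  have hlam : lam = 1.669 := rfl
  rw [hκ0, one_mul, hV0, hlam]
  have hT1 : 0 ≤ κe 1 * (S 1 ^ 2 * V 1) := mul_nonneg (hκnn 1) (mul_nonneg (sq_nonneg _) hV1)
  have hT2 : 0 ≤ κe 2 * (S 2 ^ 2 * V 2) := mul_nonneg (hκnn 2) (mul_nonneg (sq_nonneg _) hV2)
  have hT3 : 0 ≤ κe 3 * (S 3 ^ 2 * V 3) := mul_nonneg (hκnn 3) (mul_nonneg (sq_nonneg _) hV3)
  rcases Nat.lt_or_ge 1 A0.card with hbig | hsmall
  · -- at least two small prime factors
    have h2 : (2 : ℝ) ≤ A0.card := by exact_mod_cast hbig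
    have h3 : S 0 ^ 2 * 2 ≤ S 0 ^ 2 * A0.card := mul_le_mul_of_nonneg_left h2 (sq_nonneg _)
    have h4 := sq_nonneg (S 0)
    linarith
  -- at most one small prime factor
  have hUp : ∀ Q₁ : Finset ℕ, Q₁ ⊆ Q → ∀ x y : ℝ, 0 < y → y ≤ x →
      Gs Q₁ x - Gs Q₁ y ≤ (1 + 2 / w) * a * Real.log (x / y) + C := by
    intro Q₁ hQ₁ x y hy hyx
    have h := hU Z Q₁ hQ₁ x y hy hyx
    have hCC : C₁ ≤ C := by rw [hCdef]; exact le_add_of_nonneg_right hC₂.le
    exact h.trans (add_le_add_right hCC _)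
  have hLow : ∀ g : ℕ, w < g → ∀ x y : ℝ, 1 ≤ y → y ≤ x → x ≤ Z →
      (1 - 6 / w) * a * Real.log (x / y) - C ≤ Gs (Q'.erase g) x - Gs (Q'.erase g) y := by
    intro g hg x y hy hyx hxZ
    have h := hLo Z p g hp hg x y hy hyx hxZ
    rw [← hQX, ← hQ'def] at h
    have hCC : C₂ ≤ C := by rw [hCdef]; exact le_add_of_nonneg_left hC₁.le
    exact (sub_le_sub_left hCC _).trans h
  have hlog2 : Real.log 2 ≤ 0.7 := by linarith [Real.log_two_lt_d9]
  -- upper bound for the full sum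
  have hGs0 : Gs Q' (X ^ (0.166 : ℝ)) ≤ (1 + 2 / w) * a * (0.166 * L + 0.7) + C := by
    have h1 := hUp Q' (erase_subset _ _) (X ^ (0.166 : ℝ)) (1 / 2) (by norm_num)
      (by linarith [hge1 0.166 (by norm_num)])
    rw [W1_Gs_half hQ2, sub_zero] at h1
    have h2 : Real.log (X ^ (0.166 : ℝ) / (1 / 2)) = 0.166 * L + Real.log 2 := by
      rw [div_div_eq_mul_div, div_one, Real.log_mul (hpos _).ne' (by norm_num), hlogr]
    rw [h2] at h1
    have h3 : (1 + 2 / (w : ℝ)) * a * (0.166 * L + Real.log 2) ≤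
        (1 + 2 / (w : ℝ)) * a * (0.166 * L + 0.7) :=
      mul_le_mul_of_nonneg_left (by linarith) (by positivity)
    linarith
  have hGsi : ∀ ρ : ℝ, 0.034 ≤ ρ → ρ ≤ 0.119 →
      (1 - 6 / w) * a * (ρ * L) - C ≤ Gs Q' (X ^ ρ) := by
    intro ρ h1 h2
    have h3 := hLow p hp (X ^ ρ) 1 le_rfl (hge1 ρ (by linarith)) ((hmono _ _ h2).trans hRZ)
    have h4 : Q'.erase p = Q' := by rw [hQ'def, erase_idem]
    rw [h4, div_one, hlogr] at h3
    have h5 := W1_Gs_nonneg hQ2 1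
    linarith
  have hmain : 0 ≤ S 0 ∧ ∀ i : Fin 4, 0.034 ≤ ρe i → ρe i ≤ 0.119 →
      S 0 ≤ 1.01 * 0.166 / ρe i * S i := by
    rcases Nat.eq_zero_or_pos A0.card with h0 | h1
    · -- no small prime factor
      have hno : ∀ l ∈ A, X ^ (0.166 : ℝ) < (l : ℝ) := by
        intro l hl
        by_contra hcon
        have : l ∈ A0 := by
          rw [hA0, mem_filter]; exact ⟨hl, not_lt.1 hcon⟩
        rw [card_eq_zero.1 h0] at this
        exact notMem_empty _ this
      have e0 : S 0 = Gs Q' (X ^ (0.166 : ℝ)) := by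
        rw [← hS0]
        exact Sg_big Q' A hAQ hQ2 _ hno
      refine ⟨by rw [e0]; exact W1_Gs_nonneg hQ2 _, ?_⟩
      intro i hi1 hi2
      have ei : S i = Gs Q' (X ^ (ρe i)) :=
        Sg_big Q' A hAQ hQ2 _ fun l hl => lt_of_le_of_lt (hmono _ _ (by linarith)) (hno l hl)
      refine W1_numA a L C (ρe i) (1 + 2 / w) (1 - 6 / w) (S 0) (S i) ha hC hi1 ht hs
        (by linarith) ?_ ?_
      · rw [e0]; exact hGs0
      · rw [ei]; exact hGsi _ hi1 hi2
    · -- exactly one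
      have hc1 : A0.card = 1 := by omega
      obtain ⟨g, hg⟩ := card_eq_one.1 hc1
      have hgA0 : g ∈ A0 := by rw [hg]; exact mem_singleton_self g
      have hgA : g ∈ A := (mem_filter.1 hgA0).1
      have hgR : (g : ℝ) ≤ X ^ (0.166 : ℝ) := (mem_filter.1 hgA0).2
      have hoth : ∀ l ∈ A.erase g, X ^ (0.166 : ℝ) < (l : ℝ) := by
        intro l hl
        rw [mem_erase] at hl
        by_contra hcon
        have : l ∈ A0 := by
          rw [hA0, mem_filter]; exact ⟨hl.2, not_lt.1 hcon⟩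
        rw [hg, mem_singleton] at this
        exact hl.1 this
      have hgw : w < g := ((hQmem g).1 (mem_filter.1 hgA).1).1.1
      have hg2 : 2 ≤ g := hQ2 g (hAQ hgA)
      have hg0 : (0 : ℝ) < g := by exact_mod_cast (by omega : 0 < g)
      have hg1 : (1 : ℝ) ≤ g := by exact_mod_cast (by omega : 1 ≤ g)
      have hQ2' : ∀ l ∈ Q'.erase g, 2 ≤ l := fun l hl => hQ2 l (mem_of_mem_erase hl)
      have e0 : S 0 = Gs (Q'.erase g) (X ^ (0.166 : ℝ)) -
          Gs (Q'.erase g) (X ^ (0.166 : ℝ) / g) := by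
        rw [← hS0]
        exact Sg_one Q' A hAQ hQ2 _ g hgA hoth
      have hdivle : ∀ e : ℝ, X ^ e / g ≤ X ^ e := fun e =>
        div_le_self (hpos e).le hg1
      have hS0nn : 0 ≤ S 0 := by
        rw [e0]
        linarith [W1_Gs_mono hQ2' (hdivle 0.166)]
      refine ⟨hS0nn, ?_⟩
      have hlogdiv : ∀ e : ℝ, Real.log (X ^ e / (X ^ e / g)) = Real.log g := by
        intro e
        congr 1
        field_simp [(hpos e).ne']
      have hS0le : S 0 ≤ (1 + 2 / w) * a * Real.log g + C := by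
        rw [e0]
        have h := hUp (Q'.erase g) ((erase_subset _ _).trans (erase_subset _ _))
          (X ^ (0.166 : ℝ)) (X ^ (0.166 : ℝ) / g) (div_pos (hpos _) hg0) (hdivle _)
        rwa [hlogdiv] at h
      have hlg : Real.log g ≤ 0.166 * L := by
        rw [← hlogr]
        exact Real.log_le_log hg0 hgR
      have hlg' : δ * L ≤ Real.log g := by
        rw [← hlogr]
        exact Real.log_le_log (hpos _) (hAδ g hgA).le
      intro i hi1 hi2
      rcases lt_or_ge (X ^ (ρe i)) (g : ℝ) with hlt | hge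
      · have ei : S i = Gs Q' (X ^ (ρe i)) := by
          refine Sg_big Q' A hAQ hQ2 _ fun l hl => ?_
          by_cases hlg : l = g
          · rw [hlg]; exact hlt
          · exact lt_of_le_of_lt (hmono _ _ (by linarith)) (hoth l (mem_erase.2 ⟨hlg, hl⟩))
        refine W1_numA a L C (ρe i) (1 + 2 / w) (1 - 6 / w) (S 0) (S i) ha hC hi1 ht hs
          (by linarith) ?_ ?_
        · have : (1 + 2 / (w : ℝ)) * a * Real.log g ≤
              (1 + 2 / (w : ℝ)) * a * (0.166 * L + 0.7) :=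
            mul_le_mul_of_nonneg_left (by linarith) (by positivity)
          linarith
        · rw [ei]; exact hGsi _ hi1 hi2
      · have ei : S i = Gs (Q'.erase g) (X ^ (ρe i)) - Gs (Q'.erase g) (X ^ (ρe i) / g) :=
          Sg_one Q' A hAQ hQ2 _ g hgA fun l hl =>
            lt_of_le_of_lt (hmono _ _ (by linarith)) (hoth l hl)
        refine W1_numB a L C (ρe i) δ (1 + 2 / w) (1 - 6 / w) (Real.log g) (S 0) (S i) ha hC
          hi1 hi2 hδ ht hs (by linarith) hlg' hS0le ?_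
        rw [ei]
        have h := hLow g hgw (X ^ (ρe i)) (X ^ (ρe i) / g)
          (by rw [le_div_iff₀ hg0]; linarith) (hdivle _) ((hmono _ _ hi2).trans hRZ)
        rwa [hlogdiv] at h
  obtain ⟨hS0nn, hcmp⟩ := hmain
  have hsqS : ∀ i : Fin 4, i ≠ 0 → 0.034 ≤ ρe i → ρe i ≤ 0.119 → S 0 ^ 2 ≤ κe i * S i ^ 2 := by
    intro i hi h1 h2
    have h3 := hcmp i h1 h2
    have h4 : κe i = (1.01 * 0.166 / ρe i) ^ 2 := by
      unfold κe
      rw [if_neg hi]
    rw [h4, ← mul_pow]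
    exact pow_le_pow_left₀ hS0nn h3 2
  have hρ1 : ρe 1 = 0.119 := by simp [ρe]
  have hρ2 : ρe 2 = 0.074 := by simp [ρe]
  have hρ3 : ρe 3 = 0.034 := by simp [ρe]
  have q1 := hsqS 1 (by decide) (by rw [hρ1]; norm_num) (by rw [hρ1])
  have q2 := hsqS 2 (by decide) (by rw [hρ2]; norm_num) (by rw [hρ2]; norm_num)
  have q3 := hsqS 3 (by decide) (by rw [hρ3]) (by rw [hρ3]; norm_num)
  have t1 : S 0 ^ 2 * V 1 ≤ κe 1 * (S 1 ^ 2 * V 1) := by
    have := mul_le_mul_of_nonneg_right q1 hV1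
    linarith
  have t2 : S 0 ^ 2 * V 2 ≤ κe 2 * (S 2 ^ 2 * V 2) := by
    have := mul_le_mul_of_nonneg_right q2 hV2
    linarith
  have t3 : S 0 ^ 2 * V 3 ≤ κe 3 * (S 3 ^ 2 * V 3) := by
    have := mul_le_mul_of_nonneg_right q3 hV3
    linarith
  -- the sum of the weights
  have hsum : 1.669 ≤ (A0.card : ℝ) + V 1 + V 2 + V 3 := by
    have hM : 0 < 0.43 * L := by positivity
    have hα1 : αe δ 1 = 0.166 := by simp [αe]
    have hα2 : αe δ 2 = 0.26 := by simp [αe]
    have hα3 : αe δ 3 = 0.35 := by simp [αe]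
    -- pointwise bound on `A`
    have hpt : ∀ l ∈ A, 1 - Real.log l / (0.43 * L) ≤
        (if (l : ℝ) ≤ X ^ (0.166 : ℝ) then 1 else 0) + ve X δ 1 l + ve X δ 2 l + ve X δ 3 l := by
      intro l hl
      have hl0 : (0 : ℝ) < l := lt_trans (hpos δ) (hAδ l hl)
      have hlZ : (l : ℝ) ≤ X ^ (0.43 : ℝ) :=
        le_trans (by exact_mod_cast ((hQmem l).1 (mem_filter.1 hl).1).1.2) hZX
      have hn1 := hvnn 1 (by rw [hβ1]; norm_num) (by decide) l hl
      have hn2 := hvnn 2 (by rw [hβ2]; norm_num) (by decide) l hl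
      have hn3 := hvnn 3 (by rw [hβ3]) (by decide) l hl
      have hlog0 : 0 ≤ Real.log l / (0.43 * L) := by
        apply div_nonneg _ hM.le
        exact Real.log_nonneg (by
          have := hge1 δ hδ.le
          linarith [hAδ l hl])
      by_cases c0 : (l : ℝ) ≤ X ^ (0.166 : ℝ)
      · rw [if_pos c0]
        linarith
      · rw [if_neg c0]
        by_cases c1 : (l : ℝ) ≤ X ^ (0.26 : ℝ)
        · have : ve X δ 1 l = 1 - Real.log l / (0.43 * L) := by
            unfold ve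
            rw [hα1, hβ1, if_pos ⟨not_le.1 c0, c1⟩, if_neg (by decide)]
          linarith
        · by_cases c2 : (l : ℝ) ≤ X ^ (0.35 : ℝ)
          · have : ve X δ 2 l = 1 - Real.log l / (0.43 * L) := by
              unfold ve
              rw [hα2, hβ2, if_pos ⟨not_le.1 c1, c2⟩, if_neg (by decide)]
            linarith
          · have : ve X δ 3 l = 1 - Real.log l / (0.43 * L) := by
              unfold ve
              rw [hα3, hβ3, if_pos ⟨not_le.1 c2, hlZ⟩, if_neg (by decide)]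
            linarith
    have h1 : ∑ l ∈ A, (1 - Real.log l / (0.43 * L)) ≤ (A0.card : ℝ) + V 1 + V 2 + V 3 := by
      refine (sum_le_sum hpt).trans (le_of_eq ?_)
      rw [sum_add_distrib, sum_add_distrib, sum_add_distrib, hA0, card_filter]
      push_cast
      rfl
    have h2 : ∑ l ∈ n.primeFactors, (1 - Real.log l / (0.43 * L)) ≤
        ∑ l ∈ A, (1 - Real.log l / (0.43 * L)) := by
      rw [← sum_sdiff (show A ⊆ n.primeFactors from fun l hl => hApf l hl)]
      have : ∑ l ∈ n.primeFactors \ A, (1 - Real.log l / (0.43 * L)) ≤ 0 := by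
        apply sum_nonpos
        intro l hl
        rw [mem_sdiff] at hl
        have hlX := hpf l hl.1
        have hlp : l.Prime := Nat.prime_of_mem_primeFactors hl.1
        have hlw : w < l := by
          have : (w : ℝ) < l := lt_of_le_of_lt hwX hlX
          exact_mod_cast this
        have hlZ : Z < l := by
          by_contra hcon
          apply hl.2
          rw [hAdef, mem_filter]
          exact ⟨(hQmem l).2 ⟨⟨hlw, not_lt.1 hcon⟩, hlp⟩, Nat.dvd_of_mem_primeFactors hl.1⟩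
        have h3 : X ^ (0.43 : ℝ) < l := by
          have : ((Z + 1 : ℕ) : ℝ) ≤ l := by exact_mod_cast hlZ
          push_cast at this
          linarith
        have h4 : 0.43 * L ≤ Real.log l := by
          rw [← hlogr]
          exact Real.log_le_log (hpos _) h3.le
        have h5 : 1 ≤ Real.log l / (0.43 * L) := by
          rw [le_div_iff₀ hM]; linarith
        linarith
      linarith
    have h3 : ∑ l ∈ n.primeFactors, (1 - Real.log l / (0.43 * L)) =
        n.primeFactors.card - Real.log n / (0.43 * L) := by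
      rw [sum_sub_distrib, ← sum_div]
      have : ∑ l ∈ n.primeFactors, Real.log l = Real.log n := by
        conv_rhs => rw [← Nat.prod_primeFactors_of_squarefree hsq]
        push_cast
        rw [Real.log_prod]
        intro l hl
        have := (Nat.prime_of_mem_primeFactors hl).pos
        positivity
      rw [this]
      simp
    have h4 : Real.log n / (0.43 * L) ≤ 1.002 / 0.43 := by
      have hn0 : (0 : ℝ) < n := by exact_mod_cast hn
      have : Real.log n ≤ 1.002 * L := by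
        rw [← hlogr]
        exact Real.log_le_log hn0 hnX
      rw [div_le_div_iff₀ hM (by norm_num)]
      have h9 := mul_le_mul_of_nonneg_right this (by norm_num : (0 : ℝ) ≤ 0.43)
      linarith
    have h5 : (4 : ℝ) ≤ n.primeFactors.card := by exact_mod_cast hcard
    have h6 : (1.002 : ℝ) / 0.43 ≤ 2.331 := by norm_num
    linarith
  have h7 := mul_le_mul_of_nonneg_left hsum (sq_nonneg (S 0))
  have h8 : S 0 ^ 2 * ((A0.card : ℝ) + V 1 + V 2 + V 3) =
      S 0 ^ 2 * A0.card + S 0 ^ 2 * V 1 + S 0 ^ 2 * V 2 + S 0 ^ 2 * V 3 := by ring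
  rw [h8] at h7
  linarith

end Pool.Agent.helper71.AA
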